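import Pool.Agent.helper59.GF.Spec

set_option autoImplicit false

/-!
# Row DVD: divided differences kill polynomials of small degree
-/

namespace Pool.Agent.GF

theorem DVD : DVD_stmt := by
  intro p s hs P hP
  have hcard : (Finset.univ : Finset (Fin (p + 2))).card = p + 2 := by simp
  have hdeg : P.degree < (Finset.univ : Finset (Fin (p + 2))).card := by
    rw [hcard]
    refine lt_of_le_of_lt (Polynomial.degree_le_of_natDegree_le hP) ?_
    exact_mod_cast Nat.lt_succ_of_lt (Nat.lt_succ_self p)
  have h1 := Lagrange.coeff_eq_sum (s := Finset.univ) (v := s) hs.injOn hdeg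
  rw [hcard] at h1
  have h2 : P.coeff (p + 2 - 1) = 0 := Polynomial.coeff_eq_zero_of_natDegree_lt (by omega)
  rw [h2] at h1
  exact h1.symm

end Pool.Agent.GF
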